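import Pool.Agent.L7h91.VE.Gram

/-! Uniqueness of vee-systems all of whose two-dimensional flats have at most three elements. -/

namespace Pool.Agent.L7h91.VE

open Finset Module Pool.Agent.TH792.VeeB Pool.Agent.TH792.VeeCore Pool.Agent.TH792.Vee
open Pool.Agent.TH792.VeeMain Pool.Agent.TH792.VeeLink Pool.Agent.TH792.VeeProj

noncomputable section

open scoped Classical

variable {V : Type*} [AddCommGroup V] [Module ℝ V]

theorem card_of_flats {A : Finset (Dual ℝ V)} (hA : IsVeeSystem A)
    (h3 : ∀ P : Submodule ℝ (Dual ℝ V), finrank ℝ P = 2 → (inter A P).card ≤ 3) :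
    ∀ P ∈ LsA A, P.card = 3 := by
  intro P hP
  obtain ⟨i, j, hij, rfl, h⟩ := (mem_LsA A P).1 hP
  have hind : Ind (val A i) (val A j) :=
    ind_of_veeSystem hA (f := val A) Subtype.val_injective (fun i => i.2) i j hij
  have h1 := h3 _ (fr2 hind)
  have h2 : inter A (Submodule.span ℝ {val A i, val A j}) = (line (val A) i j).image (val A) := by
    ext β
    simp only [inter, Finset.mem_filter, Finset.mem_image, mem_line]
    constructor
    · rintro ⟨h1, h2⟩
      exact ⟨⟨β, h1⟩, h2, rfl⟩
    · rintro ⟨k, hk, rfl⟩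
      exact ⟨k.2, hk⟩
  have hvinj : Function.Injective (val A) := Subtype.val_injective
  rw [h2, Finset.card_image_of_injective _ hvinj] at h1
  omega

/-- connectedness -/
theorem conn {ι : Type*} [Fintype ι] {E : Type*} [AddCommGroup E] [Module ℝ E]
    {G : E →ₗ[ℝ] E →ₗ[ℝ] ℝ} {x : ι → E} {Ls : Finset (Finset ι)} {ν : Finset ι → ℝ}
    (h : Good G x Ls ν) (s : ι → ι → ℝ) (i0 : ι) : ∀ j, ∃ m c, W (adj Ls) s m i0 j c := by
  by_contra hcon
  push Not at hcon
  obtain ⟨j, hj⟩ := hcon
  obtain ⟨k, hk, l, hl, hkl⟩ := h.irr (Finset.univ.filter fun j => ∃ m c, W (adj Ls) s m i0 j c)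
    ⟨i0, by simp only [Finset.mem_filter, Finset.mem_univ, true_and]; exact ⟨0, 1, rfl, rfl⟩⟩
    ⟨j, by
      simp only [Finset.mem_filter, Finset.mem_univ, true_and]
      rintro ⟨m, c, hw⟩
      exact hj m c hw⟩
  simp only [Finset.mem_filter, Finset.mem_univ, true_and] at hk hl
  have hne : k ≠ l := fun e => hk (e ▸ hl)
  have hadj : adj Ls l k := by
    by_contra hn
    apply hkl
    rw [h.symm]
    exact zero_of_not_adj (mat_of_good h) hne.symm hn
  obtain ⟨m, c, hw⟩ := hl
  exact hk ⟨m + 1, _, W_append m 1 i0 l k c _ hw (W_one l k hadj)⟩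

theorem unique_of_small [FiniteDimensional ℝ V] (hn : 3 ≤ finrank ℝ V) (A : Finset (Dual ℝ V))
    (hA : IsVeeSystem A) (hirr : IsIrreducible A)
    (h3 : ∀ P : Submodule ℝ (Dual ℝ V), finrank ℝ P = 2 → (inter A P).card ≤ 3)
    (φ : A → Dual ℝ V) (hφ : IsMatching A φ) :
    ∃ g : Dual ℝ V ≃ₗ[ℝ] Dual ℝ V, ∀ a : A, φ a = g a ∨ φ a = - g a := by
  obtain ⟨G, hG, hgood⟩ := good_of_matching hn A (val A) (matching_val A hA hirr)
  obtain ⟨K, hK, hgoodK⟩ := good_of_matching hn A φ hφ
  have hcard := card_of_flats hA h3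
  have hnorm : (fun i => K (φ i) (φ i)) = fun i => G (val A i) (val A i) := by
    funext i
    rw [hgood.norm_eq i, hgoodK.norm_eq i]
  have hM := mat_of_good hgood
  have hM' := mat_of_good hgoodK
  rw [hnorm] at hM'
  have hspan : Submodule.span ℝ (Set.range (val A)) = ⊤ := by
    have := hA.span_eq_top
    have e : Set.range (val A) = (A : Set (Dual ℝ V)) := by
      ext β; simp [Pool.Agent.TH792.VeeMain.val]
    rw [e]; exact this
  have hne : Nonempty A := by
    by_contra hemp
    rw [not_nonempty_iff] at hemp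
    have h1 : Set.range (val A) = ∅ := Set.range_eq_empty _
    rw [h1, Submodule.span_empty] at hspan
    have h2 : finrank ℝ (Dual ℝ V) = 0 := by
      rw [← finrank_top ℝ (Dual ℝ V), ← hspan, finrank_bot]
    rw [Subspace.dual_finrank_eq] at h2
    omega
  obtain ⟨i0⟩ := hne
  obtain ⟨ε, hε, hs⟩ := exists_signs (ok hM hM' hcard) i0 (conn hgood _ i0)
  have hgram : ∀ i j, K (φ i) (φ j) = ε i * ε j * G (val A i) (val A j) := by
    intro i j
    by_cases hij : i = j
    · subst hij
      rw [hε, one_mul]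
      exact congrFun hnorm i
    by_cases ha : adj (LsA A) i j
    · have h1 := hs i j ha
      have h2 := ne_of_adj hM hcard ha
      have h1' : K (φ i) (φ j) / G (val A i) (val A j) = ε i * ε j := h1
      have h2' : G (val A i) (val A j) ≠ 0 := h2
      exact (div_eq_iff h2').1 h1'
    · have h1 : G (val A i) (val A j) = 0 := zero_of_not_adj hM hij ha
      have h2 : K (φ i) (φ j) = 0 := zero_of_not_adj hM' hij ha
      rw [h1, h2, mul_zero]
  have hspanφ : Submodule.span ℝ (Set.range φ) = ⊤ := by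
    have := hφ.isVeeSystem.span_eq_top
    simpa [img] using this
  have hφε : ∀ i, φ i = ε i • (ε i • φ i) := by
    intro i
    rw [smul_smul, hε, one_smul]
  have hspany : Submodule.span ℝ (Set.range fun i => ε i • φ i) = ⊤ := by
    rw [eq_top_iff, ← hspanφ, Submodule.span_le]
    rintro _ ⟨i, rfl⟩
    rw [hφε i]
    exact Submodule.smul_mem _ _ (Submodule.subset_span ⟨i, rfl⟩)
  obtain ⟨e, he⟩ := gl_of_gram (val A) (fun i => ε i • φ i) hspan hspany G K hgood.pos hgoodK.pos (by
    intro i j
    simp only [map_smul, LinearMap.smul_apply, smul_eq_mul]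
    rw [hgram]
    have h1 := hε i
    have h2 := hε j
    linear_combination (-(G (val A i) (val A j)) * (ε i * ε i)) * h2 -
      (G (val A i) (val A j)) * h1)
  refine ⟨e, fun a => ?_⟩
  have h1 : φ a = ε a • e (val A a) := by
    rw [← he a]
    exact hφε a
  have h2 : (ε a - 1) * (ε a + 1) = 0 := by linear_combination hε a
  rcases mul_eq_zero.1 h2 with h | h
  · left
    rw [h1, show ε a = 1 by linarith, one_smul]
    rfl
  · right
    rw [h1, show ε a = -1 by linarith]
    exact neg_one_smul ℝ (e (val A a))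

end

end Pool.Agent.L7h91.VE
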