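import Mathlib

/-! Sign functions on graphs in which all closed walks can be shortened. -/

namespace Pool.Agent.L7h91.VE

variable {ι : Type*}

/-- `c` is the product of the signs along a walk of length `m` -/
def W (adj : ι → ι → Prop) (s : ι → ι → ℝ) : ℕ → ι → ι → ℝ → Prop
  | 0, i, j, c => i = j ∧ c = 1
  | m + 1, i, l, c => ∃ j c', adj i j ∧ W adj s m j l c' ∧ c = s i j * c'

/-- the conditions on the graph and the signs -/
structure Ok (adj : ι → ι → Prop) (s : ι → ι → ℝ) : Prop where
  irr : ∀ i, ¬ adj i i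
  asymm : ∀ i j, adj i j → adj j i
  ssymm : ∀ i j, s i j = s j i
  sq : ∀ i j, adj i j → s i j * s i j = 1
  tri : ∀ i j l, adj i j → adj j l → adj l i → s i j * s j l * s l i = 1
  short : ∀ i j l r, adj i j → adj j l → adj l r → i ≠ l → ¬ adj i l → j ≠ r → ¬ adj j r →
    ∃ k, adj i k ∧ adj k r ∧ s i j * s j l * s l r = s i k * s k r

variable {adj : ι → ι → Prop} {s : ι → ι → ℝ}

theorem closed (h : Ok adj s) : ∀ (m : ℕ) (i : ι) (c : ℝ), W adj s m i i c → c = 1 := by
  intro m
  induction m using Nat.strong_induction_on with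
  | _ m ih =>
    intro i c hw
    match m, hw, ih with
    | 0, hw, _ => exact hw.2
    | 1, hw, _ =>
      obtain ⟨j, c', ha, hw', -⟩ := hw
      obtain ⟨rfl, -⟩ := hw'
      exact absurd ha (h.irr _)
    | 2, hw, _ =>
      obtain ⟨j, c', ha, ⟨l, c'', hb, ⟨rfl, rfl⟩, rfl⟩, rfl⟩ := hw
      rw [mul_one, h.ssymm j l]
      exact h.sq _ _ ha
    | m' + 3, hw, ih =>
      obtain ⟨j, c1, ha, ⟨l, c2, hb, ⟨r, c3, hc, hw', rfl⟩, rfl⟩, rfl⟩ := hw
      by_cases hil : i = l
      · subst hil
        have h1 := ih (m' + 1) (by omega) i (s i r * c3) ⟨r, c3, hc, hw', rfl⟩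
        rw [h1, mul_one, h.ssymm j i]
        exact h.sq _ _ ha
      by_cases hal : adj i l
      · have h1 := ih (m' + 2) (by omega) i (s i l * (s l r * c3))
          ⟨l, _, hal, ⟨r, c3, hc, hw', rfl⟩, rfl⟩
        have h2 := h.tri i j l ha hb (h.asymm _ _ hal)
        have h3 := h.sq i l hal
        rw [h.ssymm l i] at h2
        have h4 : s i j * s j l = s i l := by
          linear_combination (s i l) * h2 - (s i j * s j l) * h3
        calc s i j * (s j l * (s l r * c3)) = (s i j * s j l) * (s l r * c3) := by ring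
          _ = 1 := by rw [h4, h1]
      by_cases hjr : j = r
      · subst hjr
        have h1 := ih (m' + 1) (by omega) i (s i j * c3) ⟨j, c3, ha, hw', rfl⟩
        have h2 := h.sq j l hb
        rw [h.ssymm l j]
        calc s i j * (s j l * (s j l * c3)) = (s j l * s j l) * (s i j * c3) := by ring
          _ = 1 := by rw [h2, h1, one_mul]
      by_cases har : adj j r
      · have h1 := ih (m' + 2) (by omega) i (s i j * (s j r * c3))
          ⟨j, _, ha, ⟨r, c3, har, hw', rfl⟩, rfl⟩
        have h2 := h.tri j l r hb hc (h.asymm _ _ har)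
        have h3 := h.sq j r har
        rw [h.ssymm r j] at h2
        have h4 : s j l * s l r = s j r := by
          linear_combination (s j r) * h2 - (s j l * s l r) * h3
        calc s i j * (s j l * (s l r * c3)) = s i j * ((s j l * s l r) * c3) := by ring
          _ = 1 := by rw [h4, h1]
      obtain ⟨k, hik, hkr, hk⟩ := h.short i j l r ha hb hc hil hal hjr har
      have h1 := ih (m' + 2) (by omega) i (s i k * (s k r * c3))
        ⟨k, _, hik, ⟨r, c3, hkr, hw', rfl⟩, rfl⟩
      calc s i j * (s j l * (s l r * c3)) = (s i j * s j l * s l r) * c3 := by ring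
        _ = 1 := by rw [hk, mul_assoc, h1]

theorem W_append : ∀ (m m' : ℕ) (i j l : ι) (c c' : ℝ), W adj s m i j c → W adj s m' j l c' →
    W adj s (m + m') i l (c * c') := by
  intro m
  induction m with
  | zero =>
    intro m' i j l c c' h1 h2
    obtain ⟨rfl, rfl⟩ := h1
    rw [Nat.zero_add, one_mul]
    exact h2
  | succ m ih =>
    intro m' i j l c c' h1 h2
    obtain ⟨r, c1, ha, hw, rfl⟩ := h1
    rw [Nat.add_right_comm, mul_assoc]
    exact ⟨r, c1 * c', ha, ih m' r j l c1 c' hw h2, rfl⟩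

theorem W_one (i j : ι) (h : adj i j) : W adj s 1 i j (s i j) :=
  ⟨j, 1, h, ⟨rfl, rfl⟩, (mul_one _).symm⟩

theorem W_symm (h : Ok adj s) : ∀ (m : ℕ) (i j : ι) (c : ℝ), W adj s m i j c → W adj s m j i c := by
  intro m
  induction m with
  | zero =>
    intro i j c h1
    exact ⟨h1.1.symm, h1.2⟩
  | succ m ih =>
    intro i j c h1
    obtain ⟨r, c1, ha, hw, rfl⟩ := h1
    have h2 := W_append m 1 j r i c1 (s r i) (ih r j c1 hw) (W_one r i (h.asymm _ _ ha))
    rw [h.ssymm i r, mul_comm]
    exact h2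

theorem W_sq (h : Ok adj s) : ∀ (m : ℕ) (i j : ι) (c : ℝ), W adj s m i j c → c * c = 1 := by
  intro m
  induction m with
  | zero =>
    intro i j c h1
    rw [h1.2, mul_one]
  | succ m ih =>
    intro i j c h1
    obtain ⟨r, c1, ha, hw, rfl⟩ := h1
    have h2 := ih r j c1 hw
    have h3 := h.sq i r ha
    calc s i r * c1 * (s i r * c1) = (s i r * s i r) * (c1 * c1) := by ring
      _ = 1 := by rw [h2, h3, mul_one]

/-- on a connected graph the signs are a coboundary -/
theorem exists_signs (h : Ok adj s) (i0 : ι) (hconn : ∀ j, ∃ m c, W adj s m i0 j c) :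
    ∃ ε : ι → ℝ, (∀ i, ε i * ε i = 1) ∧ ∀ i j, adj i j → s i j = ε i * ε j := by
  choose m ε hε using hconn
  refine ⟨ε, fun i => W_sq h _ _ _ _ (hε i), ?_⟩
  intro i j hij
  have h1 := W_append _ _ _ _ _ _ _ (W_append _ _ _ _ _ _ _ (hε i) (W_one (s := s) i j hij))
    (W_symm h _ _ _ _ (hε j))
  have h2 := closed h _ _ _ h1
  have h3 := W_sq h _ _ _ _ (hε i)
  have h4 := W_sq h _ _ _ _ (hε j)
  have h5 : s i j = (ε i * ε i) * (ε j * ε j) * s i j := by rw [h3, h4, one_mul, one_mul]
  rw [h5]
  linear_combination (ε i * ε j) * h2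

end Pool.Agent.L7h91.VE
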