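import Pool.Agent.TH792.VeeProj
import Pool.Agent.L7h91.VE.Walk

/-! Gram matrices of vee-systems all of whose big lines have three elements. -/

namespace Pool.Agent.L7h91.VE

open Finset Module Pool.Agent.TH792.VeeB Pool.Agent.TH792.VeeCore

noncomputable section

open scoped Classical

variable {ι : Type*} [Fintype ι]

/-- the properties of the Gram matrix which are used -/
structure Mat (Ls : Finset (Finset ι)) (ν : Finset ι → ℝ) (n : ι → ℝ) (M : ι → ι → ℝ) : Prop where
  symm : ∀ i j, M i j = M j i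
  diag : ∀ i, M i i = n i
  off : ∀ i j, i ≠ j → (∀ P ∈ Ls, i ∈ P → j ∉ P) → M i j = 0
  row : ∀ i j k, i ≠ j → i ≠ k → j ≠ k → ({i, j, k} : Finset ι) ∈ Ls → ∀ m,
    M m i * n i + M m j * M j i + M m k * M k i = ν {i, j, k} * M m i
  sq : ∀ i j k, i ≠ j → i ≠ k → j ≠ k → ({i, j, k} : Finset ι) ∈ Ls →
    M i j ^ 2 = (ν {i, j, k} - n i) * (ν {i, j, k} - n j)
  ne : ∀ i j k, i ≠ j → i ≠ k → j ≠ k → ({i, j, k} : Finset ι) ∈ Ls → M i j ≠ 0

theorem mat_of_good {E : Type*} [AddCommGroup E] [Module ℝ E] {G : E →ₗ[ℝ] E →ₗ[ℝ] ℝ} {x : ι → E}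
    {Ls : Finset (Finset ι)} {ν : Finset ι → ℝ} (h : Good G x Ls ν) :
    Mat Ls ν (fun i => G (x i) (x i)) (fun i j => G (x i) (x j)) := by
  have hrow : ∀ i j k, i ≠ j → i ≠ k → j ≠ k → ({i, j, k} : Finset ι) ∈ Ls → ∀ m,
      G (x m) (x i) * G (x i) (x i) + G (x m) (x j) * G (x j) (x i) +
        G (x m) (x k) * G (x k) (x i) = ν {i, j, k} * G (x m) (x i) := by
    intro i j k hij hik hjk hP m
    have h1 := h.big _ hP i (by simp) m
    rw [Finset.sum_insert (by simp [hij, hik]), Finset.sum_insert (by simp [hjk]),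
      Finset.sum_singleton] at h1
    linarith
  -- the vector identity
  have hvec : ∀ i j k, i ≠ j → i ≠ k → j ≠ k → ({i, j, k} : Finset ι) ∈ Ls →
      G (x i) (x i) • x i + G (x j) (x i) • x j + G (x k) (x i) • x k -
        ν {i, j, k} • x i = 0 := by
    intro i j k hij hik hjk hP
    obtain ⟨w, hw⟩ : ∃ w, w = G (x i) (x i) • x i + G (x j) (x i) • x j + G (x k) (x i) • x k -
        ν {i, j, k} • x i := ⟨_, rfl⟩
    rw [← hw]
    by_contra hne
    have h1 := h.pos _ hne
    have h2 : ∀ m, G (x m) w = 0 := by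
      intro m
      rw [hw]
      simp only [map_add, map_sub, map_smul, smul_eq_mul]
      linarith [hrow i j k hij hik hjk hP m]
    have h3 : G w w = G (G (x i) (x i) • x i + G (x j) (x i) • x j + G (x k) (x i) • x k -
        ν {i, j, k} • x i) w := congrArg (fun t => G t w) hw
    rw [map_sub, map_add, map_add, map_smul, map_smul, map_smul, map_smul] at h3
    simp only [LinearMap.sub_apply, LinearMap.add_apply, LinearMap.smul_apply, h2, smul_zero,
        add_zero, sub_zero] at h3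
    rw [h3] at h1
    exact lt_irrefl _ h1
  have hkey : ∀ i j k, i ≠ j → i ≠ k → j ≠ k → ({i, j, k} : Finset ι) ∈ Ls →
      G (x i) (x j) ^ 2 = (ν {i, j, k} - G (x i) (x i)) * (ν {i, j, k} - G (x j) (x j)) ∧
        G (x i) (x j) ≠ 0 := by
    intro i j k hij hik hjk hP
    have hk : x k ∈ Submodule.span ℝ {x i, x j} := by
      rw [← mem_line, h.line_of_mem hij hP (by simp) (by simp)]
      simp
    obtain ⟨p, q, hpq⟩ := Submodule.mem_span_pair.1 hk
    have hp : p ≠ 0 := by
      rintro rfl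
      have := (h.ind j k hjk q (-1) (by rw [← hpq]; simp)).2
      norm_num at this
    have hq : q ≠ 0 := by
      rintro rfl
      have := (h.ind i k hik p (-1) (by rw [← hpq]; simp)).2
      norm_num at this
    have v1 := hvec i j k hij hik hjk hP
    have hP' : ({j, i, k} : Finset ι) = {i, j, k} := Finset.insert_comm j i {k}
    have v2 := hvec j i k hij.symm hjk hik (by rw [hP']; exact hP)
    rw [hP'] at v2
    have w1 : (G (x i) (x i) + G (x k) (x i) * p - ν {i, j, k}) • x i +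
        (G (x j) (x i) + G (x k) (x i) * q) • x j = 0 := by
      calc _ = G (x i) (x i) • x i + G (x j) (x i) • x j +
            G (x k) (x i) • (p • x i + q • x j) - ν {i, j, k} • x i := by module
        _ = 0 := by rw [hpq]; exact v1
    have w2 : (G (x i) (x j) + G (x k) (x j) * p) • x i +
        (G (x j) (x j) + G (x k) (x j) * q - ν {i, j, k}) • x j = 0 := by
      calc _ = G (x j) (x j) • x j + G (x i) (x j) • x i +
            G (x k) (x j) • (p • x i + q • x j) - ν {i, j, k} • x j := by module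
        _ = 0 := by rw [hpq]; exact v2
    obtain ⟨e1, e2⟩ := h.ind i j hij _ _ w1
    obtain ⟨e3, e4⟩ := h.ind i j hij _ _ w2
    rw [h.symm (x j) (x i)] at e2
    constructor
    · have f1 : ν {i, j, k} - G (x i) (x i) = G (x k) (x i) * p := by linarith
      have f2 : ν {i, j, k} - G (x j) (x j) = G (x k) (x j) * q := by linarith
      rw [f1, f2]
      linear_combination (G (x i) (x j)) * e2 - (G (x k) (x i) * q) * e3
    · intro h0
      rw [h0, zero_add] at e2 e3
      have g1 := (mul_eq_zero.1 e2).resolve_right hq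
      have g2 := (mul_eq_zero.1 e3).resolve_right hp
      have g3 := h.diag_pos k
      have g4 : G (x k) (x k) = p * G (x k) (x i) + q * G (x k) (x j) := by
        have := congrArg (fun t => G (x k) t) hpq
        simp only [map_add, map_smul, smul_eq_mul] at this
        exact this.symm
      rw [g4, g1, g2] at g3
      simp at g3
  exact ⟨fun i j => h.symm _ _, fun i => rfl,
    fun i j hij hs => h.small i j hij ((h.small_iff hij).2 hs), hrow,
    fun i j k a b c d => (hkey i j k a b c d).1, fun i j k a b c d => (hkey i j k a b c d).2⟩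

omit [Fintype ι] in
/-- the third element of a line -/
theorem third {P : Finset ι} (h3 : P.card = 3) {i j : ι} (hij : i ≠ j) (hi : i ∈ P) (hj : j ∈ P) :
    ∃ k, i ≠ k ∧ j ≠ k ∧ P = {i, j, k} := by
  have h1 : ((P.erase i).erase j).card = 1 := by
    rw [Finset.card_erase_of_mem (Finset.mem_erase.2 ⟨hij.symm, hj⟩), Finset.card_erase_of_mem hi,
      h3]
  obtain ⟨k, hk⟩ := Finset.card_eq_one.1 h1
  have hk1 : k ∈ (P.erase i).erase j := by rw [hk]; simp
  have hkj : k ≠ j := (Finset.mem_erase.1 hk1).1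
  have hki : k ≠ i := (Finset.mem_erase.1 (Finset.mem_erase.1 hk1).2).1
  refine ⟨k, hki.symm, hkj.symm, ?_⟩
  rw [← Finset.insert_erase hi]
  congr 1
  rw [← Finset.insert_erase (Finset.mem_erase.2 ⟨hij.symm, hj⟩), hk]

/-- adjacency -/
def adj (Ls : Finset (Finset ι)) (i j : ι) : Prop := i ≠ j ∧ ∃ P ∈ Ls, i ∈ P ∧ j ∈ P

section two

variable {Ls : Finset (Finset ι)} {ν : Finset ι → ℝ} {n : ι → ℝ} {M M' : ι → ι → ℝ}

theorem adj_third (h3 : ∀ P ∈ Ls, P.card = 3) {i j : ι} (h : adj Ls i j) :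
    ∃ k, i ≠ k ∧ j ≠ k ∧ ({i, j, k} : Finset ι) ∈ Ls := by
  obtain ⟨hij, P, hP, hi, hj⟩ := h
  obtain ⟨k, hik, hjk, rfl⟩ := third (h3 P hP) hij hi hj
  exact ⟨k, hik, hjk, hP⟩

theorem ne_of_adj (hM : Mat Ls ν n M) (h3 : ∀ P ∈ Ls, P.card = 3) {i j : ι} (h : adj Ls i j) :
    M i j ≠ 0 := by
  obtain ⟨k, hik, hjk, hP⟩ := adj_third h3 h
  exact hM.ne i j k h.1 hik hjk hP

theorem zero_of_not_adj (hM : Mat Ls ν n M) {i j : ι} (hij : i ≠ j) (h : ¬ adj Ls i j) :
    M i j = 0 := by
  apply hM.off i j hij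
  intro P hP hi hj
  exact h ⟨hij, P, hP, hi, hj⟩

theorem sq_eq (hM : Mat Ls ν n M) (hM' : Mat Ls ν n M') (h3 : ∀ P ∈ Ls, P.card = 3) (i j : ι) :
    M i j ^ 2 = M' i j ^ 2 := by
  by_cases hij : i = j
  · subst hij
    rw [hM.diag, hM'.diag]
  by_cases ha : adj Ls i j
  · obtain ⟨k, hik, hjk, hP⟩ := adj_third h3 ha
    rw [hM.sq i j k hij hik hjk hP, hM'.sq i j k hij hik hjk hP]
  · rw [zero_of_not_adj hM hij ha, zero_of_not_adj hM' hij ha]

theorem nu_ne (hM : Mat Ls ν n M) {i j k : ι} (hij : i ≠ j) (hik : i ≠ k)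
    (hjk : j ≠ k) (hP : ({i, j, k} : Finset ι) ∈ Ls) : ν {i, j, k} - n i ≠ 0 := by
  intro h0
  have h1 := hM.sq i j k hij hik hjk hP
  rw [h0, zero_mul] at h1
  exact hM.ne i j k hij hik hjk hP (pow_eq_zero_iff (two_ne_zero) |>.1 h1)

/-- triangle products agree -/
theorem tri_eq (hM : Mat Ls ν n M) (hM' : Mat Ls ν n M') (h3 : ∀ P ∈ Ls, P.card = 3) {i j l : ι}
    (h1 : adj Ls i j) (h2 : adj Ls j l) (h4 : adj Ls l i) :
    M' i j * M' j l * M' l i = M i j * M j l * M l i := by
  obtain ⟨k, hik, hjk, hP⟩ := adj_third h3 h1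
  by_cases hlk : l = k
  · subst hlk
    have r := hM.row i j l h1.1 hik hjk hP j
    have r' := hM'.row i j l h1.1 hik hjk hP j
    rw [hM.diag] at r
    rw [hM'.diag] at r'
    have q := sq_eq hM hM' h3 i j
    rw [hM.symm j i] at r
    rw [hM'.symm j i] at r'
    linear_combination (M' i j) * r' - (M i j) * r -
      (ν {i, j, l} - n i - n j) * q
  · have r := hM.row i j k h1.1 hik hjk hP l
    have r' := hM'.row i j k h1.1 hik hjk hP l
    have hD := nu_ne hM h1.1 hik hjk hP
    have hli := ne_of_adj hM h3 h4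
    have hli' := ne_of_adj hM' h3 h4
    have hij := ne_of_adj hM h3 h1
    have hjl := ne_of_adj hM h3 h2
    have qil := sq_eq hM hM' h3 l i
    have qij := sq_eq hM hM' h3 i j
    have qjl := sq_eq hM hM' h3 j l
    have qik := sq_eq hM hM' h3 i k
    have qkl := sq_eq hM hM' h3 k l
    -- the products
    obtain ⟨u, hu⟩ : ∃ u, u = M i j * M j l * M l i := ⟨_, rfl⟩
    obtain ⟨u', hu'⟩ : ∃ u, u = M' i j * M' j l * M' l i := ⟨_, rfl⟩
    obtain ⟨v, hv⟩ : ∃ u, u = M i k * M k l * M l i := ⟨_, rfl⟩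
    obtain ⟨v', hv'⟩ : ∃ u, u = M' i k * M' k l * M' l i := ⟨_, rfl⟩
    have s1 : u + v = (ν {i, j, k} - n i) * M l i ^ 2 := by
      rw [hu, hv, hM.symm j l, hM.symm k l, hM.symm i j, hM.symm i k]
      linear_combination (M l i) * r
    have s2 : u' + v' = (ν {i, j, k} - n i) * M l i ^ 2 := by
      rw [qil, hu', hv', hM'.symm j l, hM'.symm k l, hM'.symm i j, hM'.symm i k]
      linear_combination (M' l i) * r'
    have s3 : u ^ 2 = u' ^ 2 := by
      rw [hu, hu', mul_pow, mul_pow, mul_pow, mul_pow, qij, qjl, qil]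
    have s4 : v ^ 2 = v' ^ 2 := by
      rw [hv, hv', mul_pow, mul_pow, mul_pow, mul_pow, qik, qkl, qil]
    have s5 : u ≠ 0 := by
      rw [hu]
      exact mul_ne_zero (mul_ne_zero hij hjl) hli
    have s6 : (ν {i, j, k} - n i) * M l i ^ 2 ≠ 0 := mul_ne_zero hD (pow_ne_zero 2 hli)
    rw [← hu, ← hu']
    rcases sq_eq_sq_iff_eq_or_eq_neg.1 s3.symm with h | h
    · exact h
    · exfalso
      have e1 : v = (ν {i, j, k} - n i) * M l i ^ 2 - u := by linarith
      have e2 : v' = (ν {i, j, k} - n i) * M l i ^ 2 + u := by rw [h] at s2; linarith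
      rw [e1, e2] at s4
      have e3 : ((ν {i, j, k} - n i) * M l i ^ 2) * u = 0 := by linear_combination -s4 / 4
      rcases mul_eq_zero.1 e3 with h5 | h5
      · exact s6 h5
      · exact s5 h5

theorem ok (hM : Mat Ls ν n M) (hM' : Mat Ls ν n M') (h3 : ∀ P ∈ Ls, P.card = 3) :
    Ok (adj Ls) (fun i j => M' i j / M i j) := by
  have hasymm : ∀ i j, adj Ls i j → adj Ls j i := by
    rintro i j ⟨hij, P, hP, hi, hj⟩
    exact ⟨hij.symm, P, hP, hj, hi⟩
  have hsq : ∀ i j, adj Ls i j → M' i j / M i j * (M' i j / M i j) = 1 := by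
    intro i j ha
    have h1 := ne_of_adj hM h3 ha
    have h2 := sq_eq hM hM' h3 i j
    rw [div_mul_div_comm, ← sq, ← sq, ← h2, div_self (pow_ne_zero 2 h1)]
  have htri : ∀ i j l, adj Ls i j → adj Ls j l → adj Ls l i →
      M' i j / M i j * (M' j l / M j l) * (M' l i / M l i) = 1 := by
    intro i j l a b c
    have h1 := ne_of_adj hM h3 a
    have h2 := ne_of_adj hM h3 b
    have h4 := ne_of_adj hM h3 c
    rw [div_mul_div_comm, div_mul_div_comm, tri_eq hM hM' h3 a b c,
      div_self (mul_ne_zero (mul_ne_zero h1 h2) h4)]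
  have hss : ∀ i j, M' i j / M i j = M' j i / M j i := by
    intro i j
    rw [hM.symm i j, hM'.symm i j]
  refine ⟨fun i h => h.1 rfl, hasymm, hss, hsq, htri, ?_⟩
  intro i j l r a b c hil hnil hjr hnjr
  -- the third point of the line through `j`, `l`
  obtain ⟨k, hjk, hlk, hP⟩ := adj_third h3 b
  have hPl : ({l, j, k} : Finset ι) = {j, l, k} := Finset.insert_comm l j {k}
  have hjk' : adj Ls j k := ⟨hjk, _, hP, by simp, by simp⟩
  have hlk' : adj Ls l k := ⟨hlk, _, hP, by simp, by simp⟩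
  have hik : adj Ls i k := by
    have z : M i l = 0 := zero_of_not_adj hM hil hnil
    have r1 := hM.row j l k b.1 hjk hlk hP i
    rw [z, zero_mul, add_zero] at r1
    have hD := nu_ne hM b.1 hjk hlk hP
    have hij := ne_of_adj hM h3 a
    by_contra hn
    by_cases hik : i = k
    · apply hnil
      rw [hik]
      exact hasymm _ _ hlk'
    · rw [zero_of_not_adj hM hik hn, zero_mul, add_zero] at r1
      exact mul_ne_zero hD hij (by linarith)
  have hkr : adj Ls k r := by
    have z : M r j = 0 := by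
      rw [hM.symm]
      exact zero_of_not_adj hM hjr hnjr
    have r1 := hM.row l j k b.1.symm hlk hjk (by rw [hPl]; exact hP) r
    rw [z, zero_mul, add_zero] at r1
    have hD := nu_ne hM b.1.symm hlk hjk (by rw [hPl]; exact hP)
    have hlr := ne_of_adj hM h3 (hasymm _ _ c)
    by_contra hn
    by_cases hkr : r = k
    · apply hnjr
      rw [hkr]
      exact hjk'
    · rw [zero_of_not_adj hM hkr (fun h => hn (hasymm _ _ h)), zero_mul, add_zero] at r1
      exact mul_ne_zero hD hlr (by linarith)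
  refine ⟨k, hik, hkr, ?_⟩
  have t1 := htri i j k a hjk' (hasymm _ _ hik)
  have t2 := htri j l k b hlk' (hasymm _ _ hjk')
  have t3 := htri l r k c (hasymm _ _ hkr) (hasymm _ _ hlk')
  rw [hss k i] at t1
  rw [hss k j] at t2
  rw [hss k l, hss r k] at t3
  have q1 := hsq j k hjk'
  have q2 := hsq l k hlk'
  have q3 := hsq i k hik
  have q4 := hsq k r hkr
  obtain ⟨A, hA⟩ : ∃ A, A = M' i j / M i j := ⟨_, rfl⟩
  obtain ⟨B, hB⟩ : ∃ A, A = M' j l / M j l := ⟨_, rfl⟩
  obtain ⟨C, hC⟩ : ∃ A, A = M' l r / M l r := ⟨_, rfl⟩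
  obtain ⟨p, hp⟩ : ∃ A, A = M' j k / M j k := ⟨_, rfl⟩
  obtain ⟨q, hq⟩ : ∃ A, A = M' l k / M l k := ⟨_, rfl⟩
  obtain ⟨a', ha'⟩ : ∃ A, A = M' i k / M i k := ⟨_, rfl⟩
  obtain ⟨b', hb'⟩ : ∃ A, A = M' k r / M k r := ⟨_, rfl⟩
  rw [← hA, ← hp, ← ha'] at t1
  rw [← hB, ← hq, ← hp] at t2
  rw [← hC, ← hb', ← hq] at t3
  rw [← hp] at q1
  rw [← hq] at q2
  rw [← ha'] at q3
  rw [← hb'] at q4
  show M' i j / M i j * (M' j l / M j l) * (M' l r / M l r) = M' i k / M i k * (M' k r / M k r)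
  rw [← hA, ← hB, ← hC, ← ha', ← hb']
  -- A p a' = 1, B q p = 1, C b' q = 1
  have g1 : A = a' * p := by linear_combination (a' * p) * t1 - A * q3 * (p * p) - A * q1
  have g2 : B = q * p := by linear_combination (q * p) * t2 - B * q2 * (p * p) - B * q1
  have g3 : C = b' * q := by linear_combination (b' * q) * t3 - C * q4 * (q * q) - C * q2
  rw [g1, g2, g3]
  linear_combination (a' * b' * (q * q)) * q1 + (a' * b') * q2

end two

end

end Pool.Agent.L7h91.VE
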